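import Pool.Agent.Q95.CL.GoodL
import Pool.Agent.Q85.CL.FinD

/-!
The vorticity of a local solution of the Navier-Stokes equations is analytic in the space variables
at positive times (`StmGdL` of project CL, helper85).
-/

set_option autoImplicit false

open MeasureTheory Set Metric Filter Topology
open scoped ContDiff ENNReal

namespace Pool.Agent.U481.NS

open H459R3.NS W221.NS W221.NS.B
open Pool.Agent.TH305.LW (Pth ms MollP pth_exists pth_speed2 mass_cont)
open Pool.Agent.TH305.DR (SS ST Om SS_succ SS_zero)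
open Pool.Agent.Q85.CC (SQ cur Gd)
open Pool.Agent.Q85.CL (LSl StmGdL)
open Pool.Agent.Q26.CC
open Pool.Agent.Q95.CL

/-- The dissipation in small cubes along a path. -/
lemma ms_small {T : ℝ} {U : ℝ → V → V}
    (hu : ContDiffOn ℝ ∞ (fun z : ℝ × V => U z.1 z.2) (Ioo 0 T ×ˢ univ)) {t q B α : ℝ} {y : V}
    {Y : ℝ → V} (hq : 0 < q) (hα : 0 < α) (hαt : α ≤ t - q ^ 2) (ht : t < T)
    (hY : ContinuousOn Y (Icc α t))
    (hnear : ∀ τ ∈ Ioc (t - q ^ 2) t, ball (Y τ) (8 * q) ⊆ closedBall y 1)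
    (hB : ∀ τ ∈ Ioc (t - q ^ 2) t, ∀ z ∈ closedBall y 1, gsq (U τ) z ≤ B) :
    ms U q Y (t - q ^ 2) t ≤ 4096 * B * q ^ 4 := by
  have hq2 : 0 < q ^ 2 := by positivity
  have h1 : ∀ τ ∈ Ioc (t - q ^ 2) t, B2 (Y τ) (8 * q) (U τ) ≤ B * (16 * q) ^ 3 := by
    intro τ hτ
    unfold B2
    have hcd : ContDiff ℝ ∞ (U τ) := W382.ME.cd_slice hu
      ⟨by linarith [hτ.1], hτ.2.trans_lt ht⟩
    have hint : IntegrableOn (gsq (U τ)) (ball (Y τ) (8 * q)) :=
      W382.ME.int_ball (W382.ME.gsq_cont hcd) _ _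
    have hvol : (volume (ball (Y τ) (8 * q))).toReal = (16 * q) ^ 3 := by
      rw [Real.volume_pi_ball _ (by positivity), ENNReal.toReal_ofReal (by positivity)]
      simp only [Fintype.card_fin]
      ring
    calc ∫ z in ball (Y τ) (8 * q), gsq (U τ) z ≤ ∫ _z in ball (Y τ) (8 * q), B := by
          apply setIntegral_mono_on hint _ measurableSet_ball
          · intro z hz
            exact hB τ hτ z (hnear τ hτ hz)
          · exact integrableOn_const measure_ball_lt_top.ne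
      _ = B * (16 * q) ^ 3 := by
          rw [setIntegral_const, smul_eq_mul, Measure.real, hvol]
          ring
  have hc : ContinuousOn (fun τ => B2 (Y τ) (8 * q) (U τ)) (Icc α t) :=
    mass_cont hu hα ht (by linarith) hY (8 * q)
  have hii : IntervalIntegrable (fun τ => B2 (Y τ) (8 * q) (U τ)) volume (t - q ^ 2) t := by
    apply ContinuousOn.intervalIntegrable
    rw [uIcc_of_le (by linarith)]
    exact hc.mono (Icc_subset_Icc hαt le_rfl)
  have h2 : ∫ τ in (t - q ^ 2)..t, B2 (Y τ) (8 * q) (U τ)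
      ≤ ∫ _τ in (t - q ^ 2)..t, B * (16 * q) ^ 3 := by
    apply intervalIntegral.integral_mono_on_of_le_Ioo (by linarith) hii
      intervalIntegrable_const
    intro τ hτ
    exact h1 τ ⟨hτ.1, hτ.2.le⟩
  unfold ms
  rw [intervalIntegral.integral_const, smul_eq_mul] at h2
  have h3 : q⁻¹ * ∫ τ in (t - q ^ 2)..t, B2 (Y τ) (8 * q) (U τ)
      ≤ q⁻¹ * ((t - (t - q ^ 2)) * (B * (16 * q) ^ 3)) :=
    mul_le_mul_of_nonneg_left h2 (by positivity)
  refine h3.trans (le_of_eq ?_)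
  field_simp
  ring

theorem gdL : StmGdL := by
  obtain ⟨εt, hεt, c, hc, hloc0⟩ := Pool.Agent.Y302.AN.t_loca Pool.Agent.Y455.AN.t_ead
    Pool.Agent.Y7.a_pta Pool.Agent.Y475.AN.t_hara
  have hloc : LocaP εt c := fun v q h1 h2 h3 n t ht x hx => (hloc0 v q h1 h2 h3 n t ht x hx).1
  obtain ⟨CM, hCM, hmol, -⟩ := Pool.Agent.TH305.LW.gen_all
  intro T E O u p hT hsol t ht y hy
  have hE0 : 0 ≤ E := by
    refine le_trans (setIntegral_nonneg hsol.openO.measurableSet fun x _ => ?_)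
      (hsol.en (T / 2) ⟨by linarith, by linarith⟩)
    unfold nsq
    exact Finset.sum_nonneg fun i _ => by positivity
  obtain ⟨ρ₀, hρ₀, hO⟩ := nhds_basis_closedBall.mem_iff.1 (hsol.openO.mem_nhds hy)
  obtain ⟨ζ, κ, hκ, -, hζ1, hL⟩ := cut_exists hsol hE0 hρ₀ hO
  have hL3 := lsol3_of hL
  have hG : IsOpen (ball y (7 / 8 * ρ₀)) := isOpen_ball
  have hζG : ∀ x ∈ ball y (7 / 8 * ρ₀), ζ x = 1 := fun x hx => hζ1 x (ball_subset_closedBall hx)
  have hEs : 0 ≤ √E := Real.sqrt_nonneg E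
  have hu := hL.smooth_u
  -- bound of the gradient near the point
  obtain ⟨B, hB⟩ : ∃ B : ℝ, ∀ τ ∈ Icc (t / 2) t, ∀ z ∈ closedBall y 1,
      gsq ((fun t x => ζ x • u t x) τ) z ≤ B := by
    have hcont := W335.MD.gsq_cont (v := fun t x => ζ x • u t x) hu
    have hcomp : IsCompact (Icc (t / 2) t ×ˢ closedBall y 1) :=
      isCompact_Icc.prod (isCompact_closedBall y 1)
    obtain ⟨B, hB⟩ := (hcomp.image_of_continuousOn (hcont.mono (prod_mono (fun τ hτ =>
      ⟨by linarith [hτ.1, ht.1], hτ.2.trans_lt ht.2⟩) (subset_univ _)))).bddAbove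
    exact ⟨B, fun τ hτ z hz => hB ⟨(τ, z), ⟨hτ, hz⟩, rfl⟩⟩
  -- choice of the scale
  obtain ⟨q, hq, h1, h2, h3, h4⟩ : ∃ q : ℝ, 0 < q ∧ q ^ 2 < t / 2 ∧
      8 * q + 2 * CM * √E * √q < 1 ∧ 8 * q + 2 * CM * √E * √q < 7 / 8 * ρ₀ ∧
      4096 * B * q ^ 4 < εt := by
    have e1 : ∀ᶠ q : ℝ in 𝓝[>] 0, q ^ 2 < t / 2 := by
      have h : Continuous fun q : ℝ => q ^ 2 := by fun_prop
      exact (h.continuousAt.eventually_lt continuousAt_const
        (by simpa using ht.1)).filter_mono nhdsWithin_le_nhds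
    have e2 : ∀ᶠ q : ℝ in 𝓝[>] 0, 8 * q + 2 * CM * √E * √q < 1 := by
      have h : Continuous fun q : ℝ => 8 * q + 2 * CM * √E * √q := by fun_prop
      exact (h.continuousAt.eventually_lt continuousAt_const
        (by simp)).filter_mono nhdsWithin_le_nhds
    have e3 : ∀ᶠ q : ℝ in 𝓝[>] 0, 8 * q + 2 * CM * √E * √q < 7 / 8 * ρ₀ := by
      have h : Continuous fun q : ℝ => 8 * q + 2 * CM * √E * √q := by fun_prop
      exact (h.continuousAt.eventually_lt continuousAt_const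
        (by simpa using hρ₀)).filter_mono nhdsWithin_le_nhds
    have e4 : ∀ᶠ q : ℝ in 𝓝[>] 0, 4096 * B * q ^ 4 < εt := by
      have h : Continuous fun q : ℝ => 4096 * B * q ^ 4 := by fun_prop
      exact (h.continuousAt.eventually_lt continuousAt_const
        (by simpa using hεt)).filter_mono nhdsWithin_le_nhds
    obtain ⟨q, ⟨⟨⟨⟨h1, h2⟩, h3⟩, h4⟩, h5⟩⟩ :=
      ((((e1.and e2).and e3).and e4).and self_mem_nhdsWithin).exists
    exact ⟨q, h5, h1, h2, h3, h4⟩
  have hq2 : 0 < q ^ 2 := by positivity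
  have ht0 := ht.1
  obtain ⟨Y, hY, hYt⟩ := pth_exists hmol hκ hEs hL3 hq (α := t / 2) (by linarith) (by linarith)
    ht.2 y
  have hsp : ∀ τ ∈ Ioc (t - q ^ 2) t, dist (Y τ) y ≤ 2 * CM * √E * √q := by
    intro τ hτ
    have h5 := pth_speed2 hCM hmol hκ hEs hL3 hq le_rfl (by linarith) ht.2 hY (a := τ) (b := t)
      (by linarith [hτ.1]) hτ.2 le_rfl (by linarith [hτ.1])
    rw [hYt] at h5
    rwa [dist_comm, dist_eq_norm]
  have hms : ms (fun t x => ζ x • u t x) q Y (t - q ^ 2) t ≤ εt := by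
    refine (ms_small hu hq (α := t / 2) (B := B) (y := y) (by linarith) (by linarith) ht.2 hY.cont
      (fun τ hτ => ?_) (fun τ hτ z hz => hB τ ⟨by linarith [hτ.1], hτ.2⟩ z hz)).trans h4.le
    refine (ball_subset_ball' ?_ : ball (Y τ) (8 * q) ⊆ ball y 1).trans ball_subset_closedBall
    have := hsp τ hτ
    linarith
  have key := loc_endG hloc hL hq (α := t / 2) (by linarith) (by linarith) ht.2 hY hYt
    (fun τ hτ => by
      apply ball_subset_ball'
      have := hsp τ ⟨hτ.1, hτ.2.le⟩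
      linarith) hms
  refine ⟨c, q / 16, hc, by positivity, ?_⟩
  intro z hz n i j
  have hz2 : z ∈ ball y (7 / 8 * ρ₀) := by
    apply ball_subset_ball _ hz
    have : 0 ≤ 2 * CM * √E * √q := by positivity
    linarith
  have h1 := key z hz n i j
  rw [om_cutG hG hζG u t hz2 n i j] at h1
  rw [SQ_eq]
  refine (show SS n (cur i j (u t)) z ≤ _ from h1).trans ?_
  have hc0 : 0 < c := by linarith
  apply pow_le_pow_left₀ (by positivity)
  apply div_le_div_of_nonneg_left (by positivity) (by positivity)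
  apply pow_le_pow_left₀ (by positivity)
  linarith

end Pool.Agent.U481.NS
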