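import Pool.Agent.U481.NS.Pub
import Pool.Agent.U481.VL.AngK
import Pool.Agent.U481.VL.LyapD

/-!
The definitions of `Pub` and the ones of the library.
-/

set_option autoImplicit false

open MeasureTheory Set Metric
open scoped ContDiff

namespace Pool.Agent.U481.NS.Pub

open Pool.Agent

lemma len_eq : len = Q67.VD.len := rfl

lemma D_eq : D = fun j (f : V → ℝ) x => H459R3.NS.pd j f x := rfl

lemma curl_eq : curl = W268.NS.vort := rfl

lemma curl_len (v : V → V) (y : V) : len (curl v y) = Q67.VD.om v y := rfl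

lemma Solution.dsl {ν T : ℝ} {Ω : Set V} {u : ℝ → V → V} {p : ℝ → V → ℝ}
    (h : Solution ν T Ω u p) : ∃ E, Q85.CL.DSl ν T E Ω u p := by
  obtain ⟨E, hE⟩ := h.energy
  exact ⟨E, h.isOpen, h.smooth_u, h.smooth_p, h.divfree, h.momentum, fun t ht => (hE t ht).1,
    fun t ht => (hE t ht).2, h.dissipation, h.pressure⟩

lemma Threshold.kt {T₀ T : ℝ} {a : V} {R : ℝ} {m : ℝ → V → ℝ} (h : Threshold T₀ T a R m) :
    Q85.VL.Kato T₀ T a R m := h.kato

end Pool.Agent.U481.NS.Pub
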