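import Mathlib

/-!
Definitions for the statements on the vorticity near a singular point of a solution of the
Navier-Stokes equations. `V` is `ℝ³` with the maximum norm `‖·‖`, so `{y | ‖y - a‖ ≤ R}` is the
cube with centre `a` and side `2 R`; `len` is the Euclidean length.
-/

set_option autoImplicit false

open MeasureTheory Set Metric
open scoped ContDiff

namespace Pool.Agent.U481.NS.Pub

/-- `ℝ³` with the maximum norm. -/
abbrev V := Fin 3 → ℝ

/-- The Euclidean length. -/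
noncomputable def len (y : V) : ℝ := √(y ⬝ᵥ y)

/-- The partial derivative with respect to the coordinate `j`. -/
noncomputable def D (j : Fin 3) (f : V → ℝ) (x : V) : ℝ := fderiv ℝ f x (Pi.single j 1)

/-- The curl of the field `v`. -/
noncomputable def curl (v : V → V) (x : V) : V :=
  ![D 1 (fun y => v y 2) x - D 2 (fun y => v y 1) x,
    D 2 (fun y => v y 0) x - D 0 (fun y => v y 2) x,
    D 0 (fun y => v y 1) x - D 1 (fun y => v y 0) x]

/-- `(u, p)` is a smooth solution of the Navier-Stokes equations with viscosity `ν` and without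
force in `(0, T) × Ω`, `Ω` open, with bounded energy, finite dissipation and integrable pressure.
(No condition on the boundary of `Ω`.) -/
structure Solution (ν T : ℝ) (Ω : Set V) (u : ℝ → V → V) (p : ℝ → V → ℝ) : Prop where
  isOpen : IsOpen Ω
  smooth_u : ContDiffOn ℝ ∞ (fun z : ℝ × V => u z.1 z.2) (Ioo 0 T ×ˢ Ω)
  smooth_p : ContDiffOn ℝ ∞ (fun z : ℝ × V => p z.1 z.2) (Ioo 0 T ×ˢ Ω)
  divfree : ∀ t ∈ Ioo 0 T, ∀ x ∈ Ω, ∑ i, D i (fun y => u t y i) x = 0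
  momentum : ∀ t ∈ Ioo 0 T, ∀ x ∈ Ω, ∀ i,
    deriv (fun s => u s x i) t + ∑ j, u t x j * D j (fun y => u t y i) x
      = ν * ∑ j, D j (D j (fun y => u t y i)) x - D i (p t) x
  energy : ∃ E : ℝ, ∀ t ∈ Ioo 0 T, IntegrableOn (fun x => ∑ i, u t x i ^ 2) Ω ∧
    ∫ x in Ω, ∑ i, u t x i ^ 2 ≤ E
  dissipation : IntegrableOn
    (fun z : ℝ × V => ∑ i, ∑ j, D j (fun y => u z.1 y i) z.2 ^ 2) (Ioo 0 T ×ˢ Ω)
  pressure : IntegrableOn (fun z : ℝ × V => p z.1 z.2) (Ioo 0 T ×ˢ Ω)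

/-- `u` is unbounded in every neighbourhood of the point `(T, a)`. -/
def Singular (T : ℝ) (u : ℝ → V → V) (a : V) : Prop :=
  ∀ B δ : ℝ, 0 < δ → ∃ t ∈ Ioo 0 T, T - δ < t ∧ ∃ x, ‖x - a‖ ≤ δ ∧ B < ‖u t x‖

/-- `m t`, for `T₀ < t < T`, are continuous nonnegative functions which belong, uniformly in `t`, to
the Kato class in the cube `{y | ‖y - a‖ ≤ R}`: the integral of `m t y / ‖y - x‖` over the cube
`{y | ‖y - x‖ ≤ S}` tends to zero with `S`, uniformly in `t` and `x`. -/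
structure Threshold (T₀ T : ℝ) (a : V) (R : ℝ) (m : ℝ → V → ℝ) : Prop where
  cont : ∀ t ∈ Ioo T₀ T, Continuous (m t)
  nonneg : ∀ t ∈ Ioo T₀ T, ∀ y, 0 ≤ m t y
  kato : ∀ μ : ℝ, 0 < μ → ∃ S₀ : ℝ, 0 < S₀ ∧ ∀ t ∈ Ioo T₀ T, ∀ (x : V) (S : ℝ), 0 < S → S ≤ S₀ →
    ‖x - a‖ + S ≤ R → ∫ y in closedBall x S, m t y / ‖y - x‖ ≤ μ

end Pool.Agent.U481.NS.Pub
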